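import Pool.Agent.H19.MoeckelB.Stable2
import Pool.Agent.H19.MoeckelB.NotMin

/-!
# A linearly stable relative equilibrium that is not a local minimum of the potential

Nine bodies in the plane: a heavy central body and two squares (of radii `1` and `177√2/250`).
-/

set_option autoImplicit false

namespace Pool.Agent.Results.MP_ac0d1b_mp.StableNotMinimum

open Pool.Agent.H19.MoeckelB Pool.Agent.H19.Moeckel

/-- There are nine positive masses and a planar relative equilibrium `x` that is linearly stable in
the reduced system, while `x`, normalised to `I = 1`, is not a local minimum of `U` on the sphere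
`I = 1`. -/
theorem result : ∃ (m : Fin 9 → ℝ) (x : Fin 9 → ℂ) (ω : ℝ), (∀ i, 0 < m i) ∧ IsRelEq m x ω ∧
    LinStable m x ω ∧ ¬ IsLocalMinOn (pot m) (sphere m) (normalise m x) :=
  ⟨m9, x9, 1, m9_pos, relEq9, stable9, not_min9⟩

end Pool.Agent.Results.MP_ac0d1b_mp.StableNotMinimum
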